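import Pool.Agent.Run7.h625.CW.Val

/-!
Pairs of 3-CNF formulas, one satisfiable and one of value close to `7 / 8`, on which Duplicator wins
the bijective game with linearly many pebbles.
-/

set_option autoImplicit false
set_option linter.unusedSectionVars false

namespace Run7.h715.CL

open Finset Function Run7.h625.CW

/-- the number of clauses satisfied by `x`: the symbol of a clause is the assignment of its three
variables which violates it -/
def cnfSat {V : Type} [Fintype V] (I : Str 3 (Fin 3 → ZMod 2) V) (x : V → ZMod 2) : ℕ :=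
  ∑ s, ∑ w : Fin 3 → V, if x ∘ w = s then 0 else I s w

/-- every equation with three variables is replaced by four clauses -/
def cl {V : Type} (I : Str 3 (ZMod 2) V) : Str 3 (Fin 3 → ZMod 2) V :=
  fun s w => I (s 0 + s 1 + s 2 + 1) w

theorem sum_parity (F : ZMod 2 → ℕ) :
    ∑ s : Fin 3 → ZMod 2, F (s 0 + s 1 + s 2 + 1) = 4 * (F 0 + F 1) := by
  rw [Finset.sum_comp F fun s : Fin 3 → ZMod 2 => s 0 + s 1 + s 2 + 1]
  have h1 : (univ : Finset (Fin 3 → ZMod 2)).image (fun s => s 0 + s 1 + s 2 + 1) = {0, 1} := by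
    decide
  have h2 : ∀ z : ZMod 2, ((univ : Finset (Fin 3 → ZMod 2)).filter
      fun s => s 0 + s 1 + s 2 + 1 = z).card = 4 := by decide
  rw [h1, Finset.sum_pair (by decide), h2, h2, smul_eq_mul, smul_eq_mul]
  ring

theorem sum_z2 (F : ZMod 2 → ℕ) : ∑ z, F z = F 0 + F 1 := by
  have h1 : (univ : Finset (ZMod 2)) = {0, 1} := by decide
  rw [h1, Finset.sum_pair (by decide)]

theorem z2_pair (F : ZMod 2 → ℕ) (p : ZMod 2) : F 0 + F 1 = F p + F (p + 1) := by
  have h1 : p = 0 ∨ p = 1 := by revert p; decide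
  rcases h1 with rfl | rfl
  · rw [zero_add]
  · have : (1 : ZMod 2) + 1 = 0 := by decide
    rw [this, add_comm]

section
variable {V W : Type} [Fintype V] [Fintype W]

theorem total_eq (I : Str 3 (ZMod 2) V) : total I = ∑ w, (I 0 w + I 1 w) := by
  unfold total
  rw [Finset.sum_comm]
  exact Finset.sum_congr rfl fun w _ => sum_z2 fun z => I z w

theorem total_cl (I : Str 3 (ZMod 2) V) : total (cl I) = 4 * total I := by
  rw [total_eq, Finset.mul_sum]
  unfold total cl
  rw [Finset.sum_comm]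
  exact Finset.sum_congr rfl fun w _ => sum_parity fun z => I z w

theorem linSat_eq (I : Str 3 (ZMod 2) V) (x : V → ZMod 2) :
    linSat I x = ∑ w : Fin 3 → V, I (x (w 0) + x (w 1) + x (w 2)) w := by
  unfold linSat
  rw [Finset.sum_comm]
  refine Finset.sum_congr rfl fun w _ => ?_
  rw [Finset.sum_ite_eq, if_pos (mem_univ _)]

theorem cnfSat_cl (I : Str 3 (ZMod 2) V) (x : V → ZMod 2) :
    cnfSat (cl I) x = 3 * total I + linSat I x := by
  have h1 : cnfSat (cl I) x + ∑ w : Fin 3 → V, I (x (w 0) + x (w 1) + x (w 2) + 1) w =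
      total (cl I) := by
    unfold cnfSat total
    rw [Finset.sum_comm, Finset.sum_comm (s := (univ : Finset (Fin 3 → ZMod 2))),
      ← Finset.sum_add_distrib]
    refine Finset.sum_congr rfl fun w _ => ?_
    have h2 : ∀ s : Fin 3 → ZMod 2, cl I s w = (if x ∘ w = s then 0 else cl I s w) +
        if x ∘ w = s then cl I s w else 0 := fun s => by split_ifs <;> simp
    rw [Finset.sum_congr rfl fun s _ => h2 s, Finset.sum_add_distrib, Finset.sum_ite_eq,
      if_pos (mem_univ _)]
    rfl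
  have h2 : linSat I x + ∑ w : Fin 3 → V, I (x (w 0) + x (w 1) + x (w 2) + 1) w = total I := by
    rw [linSat_eq, total_eq, ← Finset.sum_add_distrib]
    exact Finset.sum_congr rfl fun w _ => (z2_pair (fun z => I z w) _).symm
  rw [total_cl] at h1
  omega

theorem wins_cl {K : ℕ} {I : Str 3 (ZMod 2) V} {J : Str 3 (ZMod 2) W}
    (h : DuplicatorWins K I J) : DuplicatorWins K (cl I) (cl J) := by
  obtain ⟨S, h0, hS⟩ := h
  exact ⟨S, h0, fun p hp => ⟨⟨(hS p hp).1.1, fun c σ a ha => (hS p hp).1.2 _ σ a ha⟩, (hS p hp).2⟩⟩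

end

/-- relabeling of the vertices -/
def relab {r : ℕ} {Γ V V' : Type} (e : V' ≃ V) (I : Str r Γ V) : Str r Γ V' :=
  fun z w => I z (e ∘ w)

theorem total_relab {r : ℕ} {Γ V V' : Type} [Fintype Γ] [Fintype V] [Fintype V'] (e : V' ≃ V)
    (I : Str r Γ V) : total (relab e I) = total I := by
  unfold total relab
  refine Finset.sum_congr rfl fun z _ => ?_
  exact Equiv.sum_comp (Equiv.arrowCongr (Equiv.refl (Fin r)) e) fun w => I z w

theorem cnfSat_relab {V V' : Type} [Fintype V] [Fintype V'] (e : V' ≃ V)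
    (I : Str 3 (Fin 3 → ZMod 2) V) (x : V' → ZMod 2) :
    cnfSat (relab e I) x = cnfSat I (x ∘ e.symm) := by
  unfold cnfSat relab
  refine Finset.sum_congr rfl fun z _ => ?_
  rw [← Equiv.sum_comp (Equiv.arrowCongr (Equiv.refl (Fin 3)) e)]
  refine Finset.sum_congr rfl fun w _ => ?_
  have h1 : (x ∘ e.symm) ∘ (Equiv.arrowCongr (Equiv.refl (Fin 3)) e) w = x ∘ w := by
    funext l
    simp [Equiv.arrowCongr_apply]
  rw [h1]
  rfl

theorem wins_relab {r K : ℕ} {Γ V V' W W' : Type} (e : V' ≃ V) (e' : W' ≃ W)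
    {I : Str r Γ V} {J : Str r Γ W} (h : DuplicatorWins K I J) :
    DuplicatorWins K (relab e I) (relab e' J) := by
  obtain ⟨S, h0, hS⟩ := h
  refine ⟨{p | (fun i => (p i).map (Prod.map e e')) ∈ S}, h0, ?_⟩
  intro p hp
  obtain ⟨⟨h1, h2⟩, h3⟩ := hS _ hp
  refine ⟨⟨?_, ?_⟩, ?_⟩
  · intro i j a b hi hj
    have := h1 i j (Prod.map e e' a) (Prod.map e e' b) (by
      show (p i).map (Prod.map e e') = _
      rw [hi]; rfl) (by
      show (p j).map (Prod.map e e') = _
      rw [hj]; rfl)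
    simpa using this
  · intro z σ a ha
    have := h2 z σ (fun l => Prod.map e e' (a l)) (fun l => by
      show (p (σ l)).map (Prod.map e e') = _
      rw [ha l]; rfl)
    exact this
  · intro i
    obtain ⟨f, hf⟩ := h3 i
    refine ⟨e.trans (f.trans e'.symm), fun v => ?_⟩
    have := hf (e v)
    show (fun j => (update p i _ j).map (Prod.map e e')) ∈ S
    convert this using 1
    funext j
    by_cases hj : j = i
    · subst hj; simp
    · simp [update_of_ne hj]

/-- Pairs of 3-CNF formulas on `2 n` variables, one satisfiable and one of value at most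
`7 / 8 + ρ`, on which Duplicator wins the game with linearly many pebbles. -/
theorem exists_cnf (ρ : ℝ) (hρ : 0 < ρ) : ∃ κ : ℝ, 0 < κ ∧ ∃ n0 : ℕ, 1 ≤ n0 ∧
    ∀ n : ℕ, n0 ≤ n → ∃ I J : Str 3 (Fin 3 → ZMod 2) (Fin (2 * n)),
      0 < total I ∧ 0 < total J ∧ (∃ x, cnfSat I x = total I) ∧
      (∀ x, (cnfSat J x : ℝ) ≤ (7 / 8 + ρ) * total J) ∧
      ∀ K : ℕ, 1 ≤ K → (K : ℝ) ≤ κ * n → DuplicatorWins K I J := by
  obtain ⟨κ, hκ, n0, hn0, H⟩ := exists_pair (4 * ρ) (by positivity)
  refine ⟨κ, hκ, n0, hn0, fun n hn => ?_⟩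
  obtain ⟨I, J, hI, hJ, ⟨x0, hx0⟩, hJv, hwin⟩ := H n hn
  have e : Fin (2 * n) ≃ Fin n × ZMod 2 := Fintype.equivOfCardEq (by
    rw [Fintype.card_prod, Fintype.card_fin, Fintype.card_fin, ZMod.card, mul_comm])
  refine ⟨relab e (cl I), relab e (cl J), ?_, ?_, ⟨x0 ∘ e, ?_⟩, ?_, ?_⟩
  · rw [total_relab, total_cl]; omega
  · rw [total_relab, total_cl]; omega
  · rw [cnfSat_relab, total_relab, total_cl]
    have h1 : (x0 ∘ e) ∘ e.symm = x0 := by funext v; simp
    rw [h1, cnfSat_cl, hx0]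
    ring
  · intro x
    rw [cnfSat_relab, total_relab, total_cl, cnfSat_cl]
    have h1 := hJv (x ∘ e.symm)
    push_cast
    linarith
  · intro K hK1 hK
    exact wins_relab e e (wins_cl (hwin K hK1 hK))

end Run7.h715.CL
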