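import Pool.Agent.Run7.h625.CW.Transfer
import Pool.Agent.Run7.h715.DS.Main
import Pool.Agent.Run7.h715.CL.Pair

/-!
Counting logic and projection games: the transfer of values, and the barrier for reductions that
preserve the equivalence of the bijective pebble game.
-/

set_option autoImplicit false
set_option linter.unusedSectionVars false

namespace Run7.h715.CL

open Finset Function Run7.h625.CW Run7.h715.DS
open Pool.Agent.TH522.DG (Dep2 satE Fib)

/-- the maps from `A` to `B` with fibres of at most `t` elements -/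
abbrev Proj (t : ℕ) (A B : Type) [Fintype A] [DecidableEq B] : Type :=
  {π : A → B // ∀ b, (univ.filter fun a => π a = b).card ≤ t}

/-- The number of constraints satisfied by the labels `x` for the sources and `y` for the targets:
a constraint with the projection `π` on the pair `e` of vertices requires `π (x (e 0)) = y (e 1)`. -/
def gmSat {X A B : Type} [Fintype X] [Fintype A] [DecidableEq A] [Fintype B] [DecidableEq B]
    {t : ℕ} (I : Str 2 (Proj t A B) X) (x : X → A) (y : X → B) : ℕ :=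
  ∑ π : Proj t A B, ∑ e : Fin 2 → X, if π.1 (x (e 0)) = y (e 1) then I π e else 0

theorem cast_gmSat {X A B : Type} [Fintype X] [Fintype A] [DecidableEq A] [Fintype B]
    [DecidableEq B] {t : ℕ} (I : Str 2 (Proj t A B) X) (x : X → A) (y : X → B) :
    (gmSat I x y : ℝ) = ∑ π : Proj t A B, ∑ e : Fin 2 → X, (I π e : ℝ) *
      (if π.1 (x (e 0)) = y (e 1) then 1 else 0) := by
  unfold gmSat
  push_cast
  refine Finset.sum_congr rfl fun π _ => Finset.sum_congr rfl fun e _ => ?_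
  rw [mul_ite, mul_one, mul_zero]

/-- a labeling of a game gives a Sherali-Adams solution on every equivalent game -/
theorem gm_transfer {X Y A B : Type} [Fintype X] [Fintype Y] [Fintype A] [DecidableEq A]
    [Fintype B] [DecidableEq B] {t : ℕ} (I : Str 2 (Proj t A B) X) (J : Str 2 (Proj t A B) Y)
    (K : ℕ) (hK2 : 2 ≤ K) (h : DuplicatorWins K I J) (x : X → A) (y : X → B) :
    Fintype.card X = Fintype.card Y ∧ total I = total J ∧
    ∃ L : ((Y → A) × (Y → B) → ℝ) →ₗ[ℝ] ℝ, SA2 K L ∧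
      (gmSat I x y : ℝ) = ∑ e : (π : Proj t A B) × (w : Fin 2 → Y) × Fin (J π w),
        L (satE (fun e => e.2.1 1) (fun e => e.2.1 0) (fun e => e.1.1) e) := by
  classical
  obtain ⟨L, hL1, hL2, hL3⟩ := transfer (A := A × B) (by norm_num) hK2 h fun v => (x v, y v)
  have hcard : Fintype.card X = Fintype.card Y := by
    obtain ⟨S, h0, hS⟩ := h
    obtain ⟨f, -⟩ := (hS _ h0).2 ⟨0, by omega⟩
    exact Fintype.card_congr f
  have hE : ∀ φ : Proj t A B → (Fin 2 → Y) → ℝ,
      ∑ e : (π : Proj t A B) × (w : Fin 2 → Y) × Fin (J π w), φ e.1 e.2.1 =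
        ∑ π, ∑ w, (J π w : ℝ) * φ π w := by
    intro φ
    rw [Fintype.sum_sigma]
    refine Finset.sum_congr rfl fun π _ => ?_
    rw [Fintype.sum_sigma]
    refine Finset.sum_congr rfl fun w _ => ?_
    simp only [Finset.sum_const, card_univ, Fintype.card_fin, nsmul_eq_mul]
  have htot : (total I : ℝ) = total J := by
    have h1 := hL3 fun _ _ => 1
    rw [cast_total, cast_total, ← h1]
    refine Finset.sum_congr rfl fun π _ => Finset.sum_congr rfl fun w _ => ?_
    rw [hL1]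
  refine ⟨hcard, by exact_mod_cast htot,
    L.comp (LinearMap.funLeft ℝ ℝ fun g : Y → A × B => (fun v => (g v).1, fun v => (g v).2)),
    ⟨hL1, fun S T hST f hf hf0 => ?_⟩, ?_⟩
  · refine hL2 (S ∪ T) ((Finset.card_union_le S T).trans hST) _ (fun g g' hg => ?_) fun g => hf0 _
    refine hf _ _ (fun w hw => ?_) fun v hv => ?_
    · show (g w).1 = (g' w).1
      rw [hg w (Finset.mem_union_left T hw)]
    · show (g v).2 = (g' v).2
      rw [hg v (Finset.mem_union_right S hv)]
  · have h1 := hL3 fun π t => if π.1 (t 0).1 = (t 1).2 then 1 else 0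
    rw [cast_gmSat]
    have h2 := hE fun π w => L fun g => if π.1 (g (w 0)).1 = (g (w 1)).2 then 1 else 0
    refine Eq.trans ?_ h2.symm
    exact h1.symm

/-- all labels at once -/
theorem exact_sa {V W A B E : Type} [Fintype V] [Fintype W] [Fintype E] [Fintype A] [Fintype B]
    [DecidableEq B] (v : E → V) (w : E → W) (π : E → A → B) (c : ℝ) (K : ℕ)
    (hK : Fintype.card W + Fintype.card V ≤ K) (L : ((W → A) × (V → B) → ℝ) →ₗ[ℝ] ℝ)
    (hL : SA2 K L) (hval : c ≤ ∑ e, L (satE v w π e)) :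
    ∃ (M : W → A) (N : V → B), c ≤ ((univ.filter fun e => π e (M (w e)) = N (v e)).card : ℝ) := by
  classical
  by_contra hcon
  push Not at hcon
  have h1 : ∀ z : (W → A) × (V → B), ∑ e, satE v w π e z < c := by
    intro z
    refine lt_of_eq_of_lt ?_ (hcon z.1 z.2)
    rw [Finset.card_filter]
    push_cast
    rfl
  have hne : Nonempty ((W → A) × (V → B)) := by
    by_contra hcon
    rw [not_nonempty_iff] at hcon
    have h1 := hL.one
    have h2 : (fun _ : (W → A) × (V → B) => (1 : ℝ)) = 0 := Subsingleton.elim _ _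
    rw [h2, map_zero] at h1
    exact zero_ne_one h1
  obtain ⟨z0, hz0⟩ := Finite.exists_max fun z : (W → A) × (V → B) => ∑ e, satE v w π e z
  set m := ∑ e, satE v w π e z0 with hm
  have h2 : 0 ≤ L (fun z => m - ∑ e, satE v w π e z) := by
    refine hL.nonneg univ univ (by rw [card_univ, card_univ]; exact hK) _ ?_ fun z => ?_
    · intro z z' h1 h2
      have h3 : z = z' := Prod.ext (funext fun w => h1 w (mem_univ _))
        (funext fun v => h2 v (mem_univ _))
      rw [h3]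
    · have h4 : ∑ e, satE v w π e z ≤ m := hz0 z
      linarith
  have h3 : (fun z => m - ∑ e, satE v w π e z) = m • (fun _ => (1 : ℝ)) - ∑ e, satE v w π e := by
    funext z
    rw [Pi.sub_apply, Pi.smul_apply, Finset.sum_apply, smul_eq_mul, mul_one]
  rw [h3, map_sub, map_smul, hL.one, map_sum, smul_eq_mul, mul_one] at h2
  have := h1 z0
  linarith

/-- **transfer of values**: with `K ≥ n ^ (14 x log (2 / x))` pebbles, or with `2 n` pebbles -/
theorem value_transfer {X Y A B : Type} [Fintype X] [Fintype Y] [Fintype A] [DecidableEq A]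
    [Fintype B] [DecidableEq B] {t : ℕ} (I : Str 2 (Proj t A B) X) (J : Str 2 (Proj t A B) Y)
    (c l x : ℝ) (ht : 1 ≤ t) (hc : 0 < c) (hc1 : c ≤ 1)
    (hl : Real.log (1024 * t / c ^ 4) ≤ l) (hx : x = Real.log (1024 * t / c ^ 4) / l) (K : ℕ)
    (hK2 : 2 ≤ K) (hK : (l ≤ Real.log (Fintype.card X) ∧
      (Fintype.card X : ℝ) ^ (14 * (x * Real.log (2 / x))) ≤ K) ∨ 2 * Fintype.card X ≤ K)
    (h : DuplicatorWins K I J) (hv : ∃ (M : X → A) (N : X → B), c * (total I : ℝ) ≤ gmSat I M N) :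
    ∃ (M : Y → A) (N : Y → B), c ^ 5 * Real.exp (-l) / 2 ^ 21 * (total J : ℝ) ≤ gmSat J M N := by
  classical
  obtain ⟨M0, N0, hMN⟩ := hv
  obtain ⟨hcard, htot, L, hL, hsat⟩ := gm_transfer I J K hK2 h M0 N0
  have ht1 : (1 : ℝ) ≤ t := by exact_mod_cast ht
  have hc4 : c ^ 4 ≤ 1 := pow_le_one₀ hc.le hc1
  have h1 : (1 : ℝ) < 1024 * t / c ^ 4 := by
    rw [lt_div_iff₀ (by positivity)]
    linarith
  have hl0 : 0 < l := lt_of_lt_of_le (Real.log_pos h1) hl
  have hEc : (Fintype.card ((π : Proj t A B) × (w : Fin 2 → Y) × Fin (J π w)) : ℝ) = total J := by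
    rw [Fintype.card_sigma]
    unfold total
    push_cast
    refine Finset.sum_congr rfl fun π _ => ?_
    rw [Fintype.card_sigma]
    push_cast
    refine Finset.sum_congr rfl fun w _ => ?_
    rw [Fintype.card_fin]
  have hres : ∀ (M : Y → A) (N : Y → B),
      ((univ.filter fun e : (π : Proj t A B) × (w : Fin 2 → Y) × Fin (J π w) =>
        e.1.1 (M (e.2.1 0)) = N (e.2.1 1)).card : ℝ) = gmSat J M N := by
    intro M N
    rw [Finset.card_filter]
    push_cast
    rw [Fintype.sum_sigma, cast_gmSat]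
    refine Finset.sum_congr rfl fun π _ => ?_
    rw [Fintype.sum_sigma]
    refine Finset.sum_congr rfl fun w _ => ?_
    show ∑ _y : Fin (J π w), (if π.1 (M (w 0)) = N (w 1) then (1 : ℝ) else 0) = _
    rw [Finset.sum_const, card_univ, Fintype.card_fin, nsmul_eq_mul]
  rw [htot, hsat, ← hEc] at hMN
  rcases hK with ⟨hln, hK⟩ | hK
  · rw [hcard] at hln hK
    obtain ⟨M, N, hr⟩ := corez
      (fun e : (π : Proj t A B) × (w : Fin 2 → Y) × Fin (J π w) => e.2.1 1)
      (fun e => e.2.1 0) (fun e => e.1.1) t (fun e => e.1.2) c l x hc hc1 hx hl0 hl hln K hK L hL hMN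
    refine ⟨M, N, ?_⟩
    rw [hEc, hres] at hr
    exact hr
  · obtain ⟨M, N, hr⟩ := exact_sa
      (fun e : (π : Proj t A B) × (w : Fin 2 → Y) × Fin (J π w) => e.2.1 1)
      (fun e => e.2.1 0) (fun e => e.1.1) _ K (by rw [← hcard]; omega) L hL hMN
    rw [hres] at hr
    refine ⟨M, N, le_trans ?_ hr⟩
    rw [← hEc]
    refine mul_le_mul_of_nonneg_right ?_ (Nat.cast_nonneg _)
    have h2 : Real.exp (-l) ≤ 1 := Real.exp_le_one_iff.2 (by linarith)
    have h3 : c ^ 5 ≤ c := by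
      calc c ^ 5 = c * c ^ 4 := by ring
        _ ≤ c * 1 := mul_le_mul_of_nonneg_left hc4 hc.le
        _ = c := mul_one _
    have h4 : c ^ 5 * Real.exp (-l) ≤ c * 1 :=
      mul_le_mul h3 h2 (Real.exp_pos _).le hc.le
    linarith

/-- a finite structure with its vertex set -/
structure Inst (r : ℕ) (Γ : Type) where
  /-- the vertices -/
  V : Type
  /-- the vertex set is finite -/
  fin : Fintype V
  /-- the multiplicities -/
  str : Str r Γ V

attribute [instance] Inst.fin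

/-- `R` reduces the approximation of 3-CNF formulas (satisfiable against value at most `7 / 8 + ρ`,
nonempty formulas) to projection games with fibres of at most `t` elements (value at least `c`
against value less than `δ`), with vertex sets of size at most `B * N ^ d`, and maps formulas which
are equivalent with `d * k + l` pebbles to games which are equivalent with `k` pebbles. -/
structure IsReduction (t : ℕ) (c δ ρ : ℝ) (d l B : ℕ) (A A' : ℕ → Type) [∀ N, Fintype (A N)]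
    [∀ N, DecidableEq (A N)] [∀ N, Fintype (A' N)] [∀ N, DecidableEq (A' N)]
    (R : ∀ N : ℕ, Str 3 (Fin 3 → ZMod 2) (Fin N) → Inst 2 (Proj t (A N) (A' N))) : Prop where
  size : ∀ N I, Fintype.card (R N I).V ≤ B * N ^ d
  invariant : ∀ N I J k, DuplicatorWins (d * k + l) I J →
    DuplicatorWins k (R N I).str (R N J).str
  complete : ∀ N I, 0 < total I → (∃ x, cnfSat I x = total I) →
    ∃ x y, c * (total (R N I).str : ℝ) ≤ gmSat (R N I).str x y
  sound : ∀ N I, 0 < total I → (∀ x, (cnfSat I x : ℝ) ≤ (7 / 8 + ρ) * total I) →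
    ∀ x y, (gmSat (R N I).str x y : ℝ) < δ * total (R N I).str

theorem eventually_small (C1 C2 s κ : ℝ) (hs : s < 1) (hκ : 0 < κ) :
    ∃ n1 : ℕ, ∀ n : ℕ, n1 ≤ n → C1 * (n : ℝ) ^ s + C2 ≤ κ * n := by
  have h1 : Filter.Tendsto (fun n : ℕ => C1 * (n : ℝ) ^ (-(1 - s))) Filter.atTop (nhds 0) := by
    have := ((tendsto_rpow_neg_atTop (by linarith : (0 : ℝ) < 1 - s)).comp
      tendsto_natCast_atTop_atTop).const_mul C1
    simpa using this
  have h2 : ∀ᶠ n : ℕ in Filter.atTop, C1 * (n : ℝ) ^ (-(1 - s)) < κ / 2 :=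
    h1.eventually (gt_mem_nhds (by positivity))
  have h3 : ∀ᶠ n : ℕ in Filter.atTop, 2 * C2 / κ ≤ (n : ℝ) :=
    tendsto_natCast_atTop_atTop.eventually (Filter.eventually_ge_atTop _)
  obtain ⟨n1, hn1⟩ := Filter.eventually_atTop.1 ((h2.and h3).and (Filter.eventually_ge_atTop 1))
  refine ⟨n1, fun n hn => ?_⟩
  obtain ⟨⟨h4, h5⟩, h6⟩ := hn1 n hn
  have h6' : (0 : ℝ) < n := by exact_mod_cast h6
  have h7 : (n : ℝ) ^ s = (n : ℝ) ^ (-(1 - s)) * n := by
    rw [← Real.rpow_add_one h6'.ne']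
    congr 1
    ring
  rw [div_le_iff₀ hκ] at h5
  rw [h7, ← mul_assoc]
  have h8 : C1 * (n : ℝ) ^ (-(1 - s)) * n ≤ κ / 2 * n := mul_le_mul_of_nonneg_right h4.le h6'.le
  linarith

theorem barrier (t : ℕ) (c lam x ρ : ℝ) (ht : 1 ≤ t) (hc : 0 < c) (hc1 : c ≤ 1)
    (hl : Real.log (1024 * t / c ^ 4) ≤ lam) (hx : x = Real.log (1024 * t / c ^ 4) / lam)
    (hρ : 0 < ρ) (d l B : ℕ) (hd : 1 ≤ d) (hdx : (d : ℝ) * (14 * (x * Real.log (2 / x))) < 1)
    (A A' : ℕ → Type) [∀ N, Fintype (A N)]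
    [∀ N, DecidableEq (A N)] [∀ N, Fintype (A' N)] [∀ N, DecidableEq (A' N)]
    (R : ∀ N : ℕ, Str 3 (Fin 3 → ZMod 2) (Fin N) → Inst 2 (Proj t (A N) (A' N))) :
    ¬ IsReduction t c (c ^ 5 * Real.exp (-lam) / 2 ^ 21) ρ d l B A A' R := by
  intro hR
  have ht1 : (1 : ℝ) ≤ t := by exact_mod_cast ht
  have hc4 : c ^ 4 ≤ 1 := pow_le_one₀ hc.le hc1
  have hΛ : (1 : ℝ) < 1024 * t / c ^ 4 := by
    rw [lt_div_iff₀ (by positivity)]
    linarith
  have hlam0 : 0 < lam := lt_of_lt_of_le (Real.log_pos hΛ) hl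
  have hx0 : 0 < x := by rw [hx]; exact div_pos (Real.log_pos hΛ) hlam0
  have hx1 : x ≤ 1 := by rw [hx, div_le_one hlam0]; exact hl
  obtain ⟨r, hr⟩ : ∃ r : ℝ, r = 14 * (x * Real.log (2 / x)) := ⟨_, rfl⟩
  have hlog : 0 < Real.log (2 / x) := Real.log_pos (by rw [lt_div_iff₀ hx0]; linarith)
  have hr0 : 0 < r := by rw [hr]; positivity
  rw [← hr] at hdx
  -- the constants
  obtain ⟨κ, hκ, n0, hn01, hpair⟩ := exists_cnf ρ hρ
  obtain ⟨C1, hC1⟩ : ∃ C1 : ℝ, C1 = ((B + 1 : ℝ) * 2 ^ d) ^ r := ⟨_, rfl⟩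
  have hC10 : 0 ≤ C1 := by rw [hC1]; positivity
  obtain ⟨E0, hE0⟩ : ∃ E0 : ℕ, E0 = ⌈2 * Real.exp lam⌉₊ + 2 := ⟨_, rfl⟩
  obtain ⟨n1, hn1⟩ := eventually_small (d * C1) (d * (1 + E0) + l) (d * r) κ hdx hκ
  obtain ⟨n, hn⟩ : ∃ n, n = max n0 n1 := ⟨_, rfl⟩
  have hnn0 : n0 ≤ n := by rw [hn]; exact le_max_left _ _
  have hnn1 : n1 ≤ n := by rw [hn]; exact le_max_right _ _
  have hnpos : (1 : ℝ) ≤ n := by exact_mod_cast hn01.trans hnn0
  obtain ⟨I, J, hI, hJ, hx0', hJv, hwin⟩ := hpair n hnn0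
  obtain ⟨K, hKd⟩ : ∃ K : ℕ, K = ⌈C1 * (n : ℝ) ^ (d * r)⌉₊ + E0 := ⟨_, rfl⟩
  have hKl : C1 * (n : ℝ) ^ (d * r) ≤ K := by
    rw [hKd]
    push_cast
    have := Nat.le_ceil (C1 * (n : ℝ) ^ (d * r))
    have h2 : (0 : ℝ) ≤ E0 := Nat.cast_nonneg _
    linarith
  have hKu : (K : ℝ) ≤ C1 * (n : ℝ) ^ (d * r) + (1 + E0) := by
    rw [hKd]
    push_cast
    have := Nat.ceil_lt_add_one (show 0 ≤ C1 * (n : ℝ) ^ (d * r) by positivity)
    linarith
  have hKE : 2 * Real.exp lam ≤ K := by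
    have h1 := Nat.le_ceil (2 * Real.exp lam)
    rw [hKd, hE0]
    push_cast
    have h2 : (0 : ℝ) ≤ ⌈C1 * (n : ℝ) ^ (d * r)⌉₊ := Nat.cast_nonneg _
    linarith
  have hK2 : 2 ≤ K := by omega
  have hdK : 1 ≤ d * K + l := by
    have : 1 * 2 ≤ d * K := Nat.mul_le_mul hd hK2
    omega
  have hw : DuplicatorWins (d * K + l) I J := by
    refine hwin _ hdK ?_
    have h1 := hn1 n hnn1
    push_cast
    have h2 : (d : ℝ) * K ≤ d * (C1 * (n : ℝ) ^ (d * r) + (1 + E0)) :=
      mul_le_mul_of_nonneg_left hKu (by positivity)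
    linarith
  have hw2 := hR.invariant _ _ _ K hw
  have hcomp := hR.complete (2 * n) I hI hx0'
  have hsize : ((Fintype.card (R (2 * n) I).V : ℕ) : ℝ) ≤ (B + 1 : ℝ) * 2 ^ d * (n : ℝ) ^ d := by
    have h1 := hR.size (2 * n) I
    have h2 : ((Fintype.card (R (2 * n) I).V : ℕ) : ℝ) ≤ B * (2 * n) ^ d := by
      exact_mod_cast h1
    rw [mul_pow] at h2
    have h3 : (0 : ℝ) ≤ 2 ^ d * (n : ℝ) ^ d := by positivity
    nlinarith
  obtain ⟨M, N, hMN⟩ := value_transfer _ _ c lam x ht hc hc1 hl hx K hK2 (by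
    rcases le_or_gt lam (Real.log (Fintype.card (R (2 * n) I).V)) with h1 | h1
    · left
      refine ⟨h1, ?_⟩
      rw [← hr]
      refine le_trans ?_ hKl
      calc ((Fintype.card (R (2 * n) I).V : ℕ) : ℝ) ^ r ≤
            ((B + 1 : ℝ) * 2 ^ d * (n : ℝ) ^ d) ^ r :=
            Real.rpow_le_rpow (by positivity) hsize hr0.le
        _ = C1 * (n : ℝ) ^ (d * r) := by
            rw [Real.mul_rpow (by positivity) (by positivity), hC1, ← Real.rpow_natCast (n : ℝ) d,
              ← Real.rpow_mul (by positivity)]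
    · right
      have h2 : ((Fintype.card (R (2 * n) I).V : ℕ) : ℝ) ≤ Real.exp lam := by
        rcases Nat.eq_zero_or_pos (Fintype.card (R (2 * n) I).V) with h3 | h3
        · rw [h3]; simp [Real.exp_nonneg]
        · rw [← Real.log_le_iff_le_exp (by exact_mod_cast h3)]
          exact h1.le
      have h3 : ((2 * Fintype.card (R (2 * n) I).V : ℕ) : ℝ) ≤ K := by
        push_cast
        linarith
      exact_mod_cast h3) hw2 hcomp
  have hs := hR.sound (2 * n) J hJ hJv M N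
  linarith

end Run7.h715.CL
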